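import Pool.Agent.K7.H16.SG.Fin2
import Pool.Agent.K7.H16.SG.REC2
import Pool.Agent.K7.H65.SG_W
import Pool.Agent.K7.H63.SG_SPL
import Pool.Agent.K7.H7.SG_REC1
import Pool.Agent.K7.H85.SG_F0
import Pool.Agent.K7.H53.SG_S
import Pool.Agent.K7.H94.SG_F1
import Pool.Agent.K7.H8.SG_NUM
import Pool.Agent.K7.H16.SG.ANA2

/-!
# An upper bound for the growth rate of the degree of noninvertibility of stack-sorting
-/

set_option autoImplicit false

open Filter Topology

namespace Pool.Agent.Results.MP_e324b2_co.GrowthUpperBound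

open Pool.Agent.K7.H16.SG

/-- Let `d n` be the degree of noninvertibility of the stack-sorting map on the permutations of
`{1, ..., n}`. Then `d n ≤ C (7/2)^n`, and the growth rate of `d n` is at most `7/2`. -/
theorem result : (∃ C : ℝ, ∀ n, d n ≤ C * (7 / 2) ^ n) ∧
    ∀ L : ℝ, Tendsto (fun n : ℕ => d n ^ (1 / (n : ℝ))) atTop (𝓝 L) → L ≤ 7 / 2 := by
  have hW : StW := Pool.Agent.K7.H65.SGW.t
  have hS : StS := Pool.Agent.K7.H53.SGS.t
  have hSpl : StSpl := Pool.Agent.K7.H63.SGSPL.t hW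
  have hF0 : StF0 := Pool.Agent.K7.H85.SGF0.t hS hW
  have hF1 : StF1 := Pool.Agent.K7.H94.SGF1.t hS hW
  have hR1 : StRec1 := Pool.Agent.K7.H7.SGREC1.t hF1 hF0 hW hSpl
  have hR2 : StRec2 := rec2 hF1 hF0 hW hSpl
  have hN : StNum := Pool.Agent.K7.H8.SGNUM.t hR1 hR2 hW
  exact fin2 hN Pool.Agent.K7.H16.SGANA.t

end Pool.Agent.Results.MP_e324b2_co.GrowthUpperBound
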